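import Mathlib

/-!
# Project MW, job TH: the number of instances in the OR-composition
-/

set_option autoImplicit false

namespace Pool.Agent.Q208.MW

theorem size_bound (ε : ℝ) (hε : 0 < ε) (t : ℕ) (ht : 1 ≤ t) :
    ((t.size : ℝ) + 1) ≤ (2 + 1 / (ε * Real.log 2)) * (t : ℝ) ^ ε := by
  have hl2 : 0 < Real.log 2 := Real.log_pos (by norm_num)
  have ht1 : (1 : ℝ) ≤ t := by exact_mod_cast ht
  have hs : 0 < t.size := Nat.size_pos.mpr (by omega)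
  have h1 : 2 ^ (t.size - 1) ≤ t := by
    apply Nat.lt_size.mp
    omega
  have h2 : ((2 : ℝ)) ^ (t.size - 1) ≤ t := by exact_mod_cast h1
  have h3 : ((t.size - 1 : ℕ) : ℝ) * Real.log 2 ≤ Real.log t := by
    rw [← Real.log_pow]
    exact Real.log_le_log (by positivity) h2
  rw [Nat.cast_sub hs, Nat.cast_one] at h3
  have h4 : Real.log t ≤ (t : ℝ) ^ ε / ε := Real.log_le_rpow_div (by linarith) hε
  have h5 : (1 : ℝ) ≤ (t : ℝ) ^ ε := Real.one_le_rpow ht1 hε.le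
  have h6 : (t.size : ℝ) - 1 ≤ (t : ℝ) ^ ε / ε / Real.log 2 := by
    rw [le_div_iff₀ hl2]
    linarith
  have h7 : (t : ℝ) ^ ε / ε / Real.log 2 = 1 / (ε * Real.log 2) * (t : ℝ) ^ ε := by
    field_simp
  rw [h7] at h6
  have h8 : (2 + 1 / (ε * Real.log 2)) * (t : ℝ) ^ ε =
      2 * (t : ℝ) ^ ε + 1 / (ε * Real.log 2) * (t : ℝ) ^ ε := by ring
  rw [h8]
  linarith

theorem TH (δ : ℝ) (hδ : 0 < δ) (hδ' : δ ≤ 1 / 2) (C : ℕ) (hC : 1 ≤ C) :
    ∃ c : ℕ, ∀ h : ℕ, ∃ H : ℕ, ∀ ℓ : ℕ, ∃ t : ℕ, 1 ≤ t ∧ t ≤ H * (ℓ + 1) ^ c ∧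
      (h : ℝ) * ((C * (t + 1) * (ℓ + 1) * (t.size + 1) : ℕ) : ℝ) ^ (1 - δ) + 2 ≤ t := by
  have hl2 : 0 < Real.log 2 := Real.log_pos (by norm_num)
  set D1 : ℝ := 2 + 1 / (δ / 2 * Real.log 2) with hD1
  have hD1pos : 2 ≤ D1 := by
    have : 0 < 1 / (δ / 2 * Real.log 2) := by positivity
    linarith
  set D : ℕ := ⌈2 * C * D1⌉₊ with hD
  have hC1 : (1 : ℝ) ≤ C := by exact_mod_cast hC
  have hDge : 2 * C * D1 ≤ D := Nat.le_ceil _
  have hD4 : (1 : ℝ) ≤ D := by nlinarith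
  obtain ⟨m, hm⟩ := exists_nat_ge (2 / δ)
  refine ⟨m, fun h => ⟨(h * D + 2) ^ m, fun ℓ => ⟨((h * D + 2) * (ℓ + 1)) ^ m, ?_, ?_, ?_⟩⟩⟩
  · exact Nat.one_le_pow _ _ (by positivity)
  · rw [mul_pow]
  · set A : ℕ := (h * D + 2) * (ℓ + 1) with hA
    set t : ℕ := A ^ m with ht
    have hA1 : 1 ≤ A := by
      rw [hA]
      exact Nat.succ_le_of_lt (by positivity)
    have ht1 : 1 ≤ t := Nat.one_le_pow _ _ hA1
    have ht1' : (1 : ℝ) ≤ t := by exact_mod_cast ht1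
    have ht0 : (0 : ℝ) < t := by linarith
    have hA1' : (1 : ℝ) ≤ A := by exact_mod_cast hA1
    have hl0 : (0 : ℝ) ≤ ℓ := Nat.cast_nonneg ℓ
    have hh0 : (0 : ℝ) ≤ h := Nat.cast_nonneg h
    have hsz := size_bound (δ / 2) (by positivity) t ht1
    rw [← hD1] at hsz
    have hX : ((C * (t + 1) * (ℓ + 1) * (t.size + 1) : ℕ) : ℝ) ≤
        (D * (ℓ + 1)) * (t : ℝ) ^ (1 + δ / 2) := by
      push_cast
      have h1 : (C : ℝ) * ((t : ℝ) + 1) ≤ 2 * C * t := by nlinarith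
      calc (C : ℝ) * ((t : ℝ) + 1) * ((ℓ : ℝ) + 1) * ((t.size : ℝ) + 1)
          ≤ (2 * C * t) * ((ℓ : ℝ) + 1) * (D1 * (t : ℝ) ^ (δ / 2)) := by
            apply mul_le_mul _ hsz (by positivity) (by positivity)
            exact mul_le_mul_of_nonneg_right h1 (by positivity)
        _ = (2 * C * D1) * ((ℓ : ℝ) + 1) * ((t : ℝ) * (t : ℝ) ^ (δ / 2)) := by ring
        _ ≤ D * ((ℓ : ℝ) + 1) * ((t : ℝ) * (t : ℝ) ^ (δ / 2)) := by
            apply mul_le_mul_of_nonneg_right _ (by positivity)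
            exact mul_le_mul_of_nonneg_right hDge (by positivity)
        _ = D * ((ℓ : ℝ) + 1) * (t : ℝ) ^ (1 + δ / 2) := by
            rw [Real.rpow_add ht0, Real.rpow_one]
    have hDl : (1 : ℝ) ≤ D * (ℓ + 1) := by nlinarith
    have hX2 : ((C * (t + 1) * (ℓ + 1) * (t.size + 1) : ℕ) : ℝ) ^ (1 - δ) ≤
        (D * (ℓ + 1)) * (t : ℝ) ^ (1 - δ / 2) := by
      calc ((C * (t + 1) * (ℓ + 1) * (t.size + 1) : ℕ) : ℝ) ^ (1 - δ)
          ≤ ((D * (ℓ + 1)) * (t : ℝ) ^ (1 + δ / 2)) ^ (1 - δ) :=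
            Real.rpow_le_rpow (Nat.cast_nonneg _) hX (by linarith)
        _ = (D * ((ℓ : ℝ) + 1)) ^ (1 - δ) * (t : ℝ) ^ ((1 + δ / 2) * (1 - δ)) := by
            rw [Real.mul_rpow (by linarith) (by positivity), ← Real.rpow_mul ht0.le]
        _ ≤ (D * ((ℓ : ℝ) + 1)) ^ (1 : ℝ) * (t : ℝ) ^ (1 - δ / 2) := by
            apply mul_le_mul
            · exact Real.rpow_le_rpow_of_exponent_le hDl (by linarith)
            · apply Real.rpow_le_rpow_of_exponent_le ht1'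
              nlinarith
            · positivity
            · positivity
        _ = (D * ((ℓ : ℝ) + 1)) * (t : ℝ) ^ (1 - δ / 2) := by rw [Real.rpow_one]
    have htA : (A : ℝ) ≤ (t : ℝ) ^ (δ / 2) := by
      rw [ht]
      push_cast
      rw [← Real.rpow_natCast, ← Real.rpow_mul (by linarith)]
      calc (A : ℝ) = (A : ℝ) ^ (1 : ℝ) := (Real.rpow_one _).symm
        _ ≤ (A : ℝ) ^ ((m : ℝ) * (δ / 2)) := by
            apply Real.rpow_le_rpow_of_exponent_le hA1'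
            rw [div_le_iff₀ hδ] at hm
            linarith
    have hT1 : (1 : ℝ) ≤ (t : ℝ) ^ (1 - δ / 2) := Real.one_le_rpow ht1' (by linarith)
    have hAe : (A : ℝ) = (h * D + 2) * (ℓ + 1) := by
      rw [hA]; push_cast; ring
    calc (h : ℝ) * ((C * (t + 1) * (ℓ + 1) * (t.size + 1) : ℕ) : ℝ) ^ (1 - δ) + 2
        ≤ (h : ℝ) * ((D * (ℓ + 1)) * (t : ℝ) ^ (1 - δ / 2)) +
          2 * ((ℓ + 1) * (t : ℝ) ^ (1 - δ / 2)) := by
          have h1 := mul_le_mul_of_nonneg_left hX2 hh0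
          have h2 : (1 : ℝ) ≤ (ℓ + 1) * (t : ℝ) ^ (1 - δ / 2) := by nlinarith
          linarith
      _ = A * (t : ℝ) ^ (1 - δ / 2) := by
          rw [hAe]; ring
      _ ≤ (t : ℝ) ^ (δ / 2) * (t : ℝ) ^ (1 - δ / 2) :=
          mul_le_mul_of_nonneg_right htA (by positivity)
      _ = t := by
          rw [← Real.rpow_add ht0]
          have : δ / 2 + (1 - δ / 2) = 1 := by ring
          rw [this, Real.rpow_one]

end Pool.Agent.Q208.MW
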